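import Pool.Agent.W921.RF.Defs

set_option autoImplicit false

namespace Pool.Agent.W214.RF

open Pool.Agent.W921.RF

theorem Pf_cons (o : ℤ × ℤ) (l : List (ℤ × ℤ)) (i : ℤ) :
    Pf (o :: l) i = (if o.1 = i then o.2 else 0) + Pf l i := by
  unfold Pf
  rw [List.map_cons, List.sum_cons]

theorem sum_Pf {M : Type} [AddCommGroup M] (g : ℤ → M) (s : Finset ℤ) :
    ∀ l : List (ℤ × ℤ), (∀ o ∈ l, o.1 ∈ s) →
      (l.map fun o => o.2 • g o.1).sum = ∑ i ∈ s, Pf l i • g i
  | [], _ => by
      have h : ∀ i, Pf [] i = 0 := fun i => rfl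
      simp [h]
  | o :: l, h => by
      rw [List.map_cons, List.sum_cons, sum_Pf g s l (fun o' ho' => h o' (List.mem_cons_of_mem _ ho'))]
      have h1 : ∀ i, Pf (o :: l) i • g i = (if o.1 = i then o.2 • g i else 0) + Pf l i • g i := by
        intro i
        rw [Pf_cons, add_smul]
        by_cases hi : o.1 = i
        · rw [if_pos hi, if_pos hi]
        · rw [if_neg hi, if_neg hi, zero_smul]
      simp only [h1]
      rw [Finset.sum_add_distrib, Finset.sum_ite_eq, if_pos (h o List.mem_cons_self)]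

theorem sum_zero {M : Type} [AddCommGroup M] (g : ℤ → M) (l : List (ℤ × ℤ))
    (h : ∀ i, Pf l i = 0) : (l.map fun o => o.2 • g o.1).sum = 0 := by
  rw [sum_Pf g (l.map Prod.fst).toFinset l (fun o ho => by
    rw [List.mem_toFinset]
    exact List.mem_map_of_mem ho)]
  simp [h]

theorem sum_at_zero (l : List (ℤ × ℤ)) (i : ℤ) :
    ((l.map fun o => o.2 • (if o.1 = i then (Finsupp.single 0 1 : ℕ →₀ ℤ) else 0)).sum) 0 =
      Pf l i := by
  induction l with
  | nil => rfl
  | cons o l ih =>
    rw [List.map_cons, List.sum_cons, Finsupp.add_apply, ih, Pf_cons]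
    congr 1
    by_cases h : o.1 = i
    · rw [if_pos h, if_pos h]
      simp
    · rw [if_neg h, if_neg h]
      simp

theorem task (h : S_EV) : S_TRI := by
  refine ⟨?_, ?_⟩
  · intro ρ hρ w hw
    have hev := h ℤ (ℕ →₀ ℤ) 1 ρ hρ w
    have hkey : ∀ (f : ℤ → (ℕ →₀ ℤ)) (y : ℕ →₀ ℤ),
        (∀ a, f (a - tot w) + ((occ 0 w).map fun o => o.2 • ρ (a - o.1)).sum = f a) ∧
        y + ((occ 0 w).map fun o => o.2 • f (o.1 - tot w)).sum + Zf ρ (occ 0 w) = y := by
      intro f y
      have h1 := hev f y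
      rw [hw] at h1
      simp only [Equiv.Perm.coe_one, id_eq, smul_eq_mul, mul_one, Prod.mk.injEq] at h1
      exact ⟨fun a => (congrFun h1.1 a).symm, h1.2.symm⟩
    have hZ : Zf ρ (occ 0 w) = 0 := by
      have h1 := (hkey 0 0).2
      simpa using h1
    have hsum : ∀ f : ℤ → (ℕ →₀ ℤ), ((occ 0 w).map fun o => o.2 • f (o.1 - tot w)).sum = 0 := by
      intro f
      have h1 := (hkey f 0).2
      rw [hZ, zero_add, add_zero] at h1
      exact h1
    have hP : ∀ i, Pf (occ 0 w) i = 0 := by
      intro i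
      have h1 := hsum (fun a => if a = i - tot w then (Finsupp.single 0 1 : ℕ →₀ ℤ) else 0)
      have h2 : ((occ 0 w).map fun o => o.2 • (if o.1 = i then
          (Finsupp.single 0 1 : ℕ →₀ ℤ) else 0)).sum = 0 := by
        have e : ((occ 0 w).map fun o => o.2 • (if o.1 = i then
            (Finsupp.single 0 1 : ℕ →₀ ℤ) else 0)) = ((occ 0 w).map fun o =>
            o.2 • (fun a => if a = i - tot w then (Finsupp.single 0 1 : ℕ →₀ ℤ) else 0)
              (o.1 - tot w)) := by
          refine List.map_congr_left fun o _ => ?_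
          by_cases ho : o.1 = i
          · simp only
            rw [if_pos ho, if_pos (by rw [ho])]
          · simp only
            rw [if_neg ho, if_neg (by omega)]
        rw [e]
        exact h1
      rw [← sum_at_zero, h2]
      rfl
    refine ⟨?_, hP, hZ⟩
    have h1 := (hkey (fun a => if a = 0 then (Finsupp.single 0 1 : ℕ →₀ ℤ) else 0) 0).1 0
    rw [sum_zero (fun i => ρ (0 - i)) (occ 0 w) hP, add_zero, if_pos rfl] at h1
    by_contra hne
    rw [if_neg (by omega)] at h1
    have h2 := DFunLike.congr_fun h1 0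
    simp at h2
  · intro I C _ _ u ρ hρ w h0 hP hZ
    apply Equiv.ext
    rintro ⟨f, y⟩
    rw [h I C u ρ hρ w f y, h0, hZ, Equiv.Perm.coe_one, id_eq]
    refine Prod.ext (funext fun a => ?_) ?_
    · show f (a - (0 : ℤ) • u) + _ = f a
      rw [sum_zero (fun i => ρ (a - i • u)) (occ 0 w) hP, zero_smul, sub_zero, add_zero]
    · show y + ((occ 0 w).map fun o => o.2 • f ((o.1 - 0) • u)).sum + 0 = y
      rw [sum_zero (fun i => f ((i - 0) • u)) (occ 0 w) hP, add_zero, add_zero]

end Pool.Agent.W214.RF
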